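import Mathlib
import Pool.Agent.Run7.h202.RP.Stm

set_option autoImplicit false

namespace Run7.h898.RP

open Finset

/-- The image of the first `m` places. -/
def preG {α : Type} [DecidableEq α] {E : Finset α} (σ : Fin E.card ≃ {e // e ∈ E}) (m : ℕ) :
    Finset α :=
  (univ.filter (fun i : Fin E.card => i.val < m)).image (fun i => (σ i : α))

theorem preG_mem {α : Type} [DecidableEq α] {E : Finset α} (σ : Fin E.card ≃ {e // e ∈ E})
    {m : ℕ} (hm : m ≤ E.card) : preG σ m ∈ E.powersetCard m := by
  rw [mem_powersetCard]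
  constructor
  · intro x hx
    unfold preG at hx
    rw [mem_image] at hx
    obtain ⟨i, _, rfl⟩ := hx
    exact (σ i).2
  · unfold preG
    rw [card_image_of_injective _ (fun i j h => σ.injective (Subtype.ext h)),
      Fin.card_filter_val_lt]
    omega

theorem card_fiber_eq {α : Type} [DecidableEq α] {E : Finset α} {m : ℕ} {F F' : Finset α}
    (hF : F ∈ E.powersetCard m) (hF' : F' ∈ E.powersetCard m) :
    (univ.filter (fun σ : Fin E.card ≃ {e // e ∈ E} => preG σ m = F)).card ≤
      (univ.filter (fun σ : Fin E.card ≃ {e // e ∈ E} => preG σ m = F')).card := by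
  classical
  rw [mem_powersetCard] at hF hF'
  -- a permutation of `E` which maps `F` to `F'`
  have hc : ∀ G : Finset α, G ⊆ E →
      Fintype.card {x : {e // e ∈ E} // (x : α) ∈ G} = G.card := by
    intro G hG
    rw [Fintype.card_subtype]
    have : (univ.filter (fun x : {e // e ∈ E} => (x : α) ∈ G)).map
        (Function.Embedding.subtype _) = G := by
      ext x
      simp only [mem_map, mem_filter, mem_univ, true_and, Function.Embedding.coe_subtype]
      constructor
      · rintro ⟨y, hy, rfl⟩; exact hy
      · intro hx; exact ⟨⟨x, hG hx⟩, hx, rfl⟩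
    calc _ = ((univ.filter (fun x : {e // e ∈ E} => (x : α) ∈ G)).map
        (Function.Embedding.subtype _)).card := (card_map _).symm
      _ = G.card := by rw [this]
  let e : {x : {e // e ∈ E} // (x : α) ∈ F} ≃ {x : {e // e ∈ E} // (x : α) ∈ F'} :=
    Fintype.equivOfCardEq (by rw [hc F hF.1, hc F' hF'.1, hF.2, hF'.2])
  let π : Equiv.Perm {e // e ∈ E} := e.extendSubtype
  have hπ : ∀ x : {e // e ∈ E}, (x : α) ∈ F ↔ ((π x : {e // e ∈ E}) : α) ∈ F' := by
    intro x
    constructor
    · intro hx; exact e.extendSubtype_mem x hx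
    · intro hx
      by_contra hc
      exact e.extendSubtype_not_mem x hc hx
  apply Finset.card_le_card_of_injOn (fun σ => σ.trans π)
  · intro σ hσ
    simp only [coe_filter, mem_univ, true_and, Set.mem_ofPred_eq] at hσ ⊢
    have hcard : (preG (σ.trans π) m).card = F'.card := by
      have h1 := preG_mem (σ.trans π) (m := m) (by rw [← hF.2]; exact card_le_card hF.1)
      rw [mem_powersetCard] at h1
      rw [h1.2, hF'.2]
    apply eq_of_subset_of_card_le
    · intro x hx
      unfold preG at hx
      rw [mem_image] at hx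
      obtain ⟨i, hi, rfl⟩ := hx
      simp only [Equiv.trans_apply]
      rw [← hπ, ← hσ]
      unfold preG
      exact mem_image_of_mem _ hi
    · rw [hcard]
  · intro σ _ τ _ h
    apply Equiv.ext
    intro i
    have := congrArg (fun f : Fin E.card ≃ {e // e ∈ E} => f i) h
    simp only [Equiv.trans_apply] at this
    exact π.injective this

open Classical in
theorem ord_gen {α : Type} [DecidableEq α] (E : Finset α) (m : ℕ) (hm : m ≤ E.card)
    (Q : Finset α → Prop) :
    ((univ.filter (fun σ : Fin E.card ≃ {e // e ∈ E} => Q (preG σ m))).card : ℝ) =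
      (E.card.factorial : ℝ) *
        ((((E.powersetCard m).filter (fun F => Q F)).card : ℝ) / (E.card.choose m : ℝ)) := by
  obtain ⟨F₀, hF₀⟩ := powersetCard_nonempty.2 hm
  set c := (univ.filter (fun σ : Fin E.card ≃ {e // e ∈ E} => preG σ m = F₀)).card with hcdef
  have hc : ∀ F ∈ E.powersetCard m,
      (univ.filter (fun σ : Fin E.card ≃ {e // e ∈ E} => preG σ m = F)).card = c :=
    fun F hF => le_antisymm (card_fiber_eq hF hF₀) (card_fiber_eq hF₀ hF)
  have htot : E.card.factorial = E.card.choose m * c := by
    have h1 : Fintype.card (Fin E.card ≃ {e // e ∈ E}) = E.card.factorial := by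
      rw [Fintype.card_equiv E.equivFin.symm, Fintype.card_fin]
    have h2 := Finset.card_eq_sum_card_fiberwise (f := fun σ : Fin E.card ≃ {e // e ∈ E} =>
      preG σ m) (s := univ) (t := E.powersetCard m) (fun σ _ => preG_mem σ hm)
    rw [sum_congr rfl hc, sum_const, card_powersetCard, smul_eq_mul, card_univ, h1] at h2
    exact h2
  have hQ : (univ.filter (fun σ : Fin E.card ≃ {e // e ∈ E} => Q (preG σ m))).card =
      ((E.powersetCard m).filter (fun F => Q F)).card * c := by
    have h2 := Finset.card_eq_sum_card_fiberwise (f := fun σ : Fin E.card ≃ {e // e ∈ E} =>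
      preG σ m) (s := univ.filter (fun σ : Fin E.card ≃ {e // e ∈ E} => Q (preG σ m)))
      (t := (E.powersetCard m).filter (fun F => Q F)) (by
        intro σ hσ
        simp only [coe_filter, mem_univ, true_and, Set.mem_ofPred_eq] at hσ ⊢
        exact ⟨preG_mem σ hm, hσ⟩)
    rw [h2]
    rw [sum_congr rfl (g := fun _ => c), sum_const, smul_eq_mul]
    intro F hF
    rw [mem_filter] at hF
    rw [← hc F hF.1, filter_filter]
    congr 1
    apply filter_congr
    intro σ _
    constructor
    · rintro ⟨_, h⟩; exact h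
    · intro h; exact ⟨by rw [h]; exact hF.2, h⟩
  rw [hQ, htot]
  have hch : (E.card.choose m : ℝ) ≠ 0 := by
    exact_mod_cast (Nat.choose_pos hm).ne'
  push_cast
  field_simp

theorem t_ORD : Pool.Agent.Run7.h202.RP.ORD := by
  intro V _ _ m Q hm
  classical
  have h := ord_gen (Pool.Agent.Y395.RW.pairs V) m hm Q
  unfold Pool.Agent.Run7.h202.RP.frac
  rw [← h]
  have e : ∀ σ : Pool.Agent.Run7.h202.RP.Ord V,
      Pool.Agent.Run7.h202.RP.pre σ m = preG σ m := by
    intro σ
    unfold Pool.Agent.Run7.h202.RP.pre preG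
    congr
  have e2 : ∀ σ : Pool.Agent.Run7.h202.RP.Ord V,
      Q (Pool.Agent.Run7.h202.RP.pre σ m) ↔ Q (preG σ m) := fun σ => by rw [e σ]
  refine congrArg (fun t : ℕ => (t : ℝ)) (congrArg Finset.card ?_)
  ext σ
  rw [mem_filter, mem_filter]
  exact and_congr Iff.rfl (e2 σ)

end Run7.h898.RP
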